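import Pool.Agent.W907.SM.Stmts

/-!
SM-THIN: intervals of length two in a Gorenstein* poset have two inner elements.
-/

namespace Pool.Agent.W391.SM.Thin

open Pool.Agent.W907.SG Pool.Agent.W907.SM Module

/-- the trivial representation over `F_2` -/
abbrev tr {V : Type} : V → ZMod 2 →ₗ[ZMod 2] ZMod 2 := fun _ => LinearMap.id

theorem z2_neg (a : ZMod 2) : a = -a := by
  revert a; decide

theorem z2_ne (a : ZMod 2) (h : a ≠ 0) : a = 1 := by
  revert a; decide

theorem sg_smul {V : Type} [LinearOrder V] (v : V) (T : Finset V) (a : ZMod 2) :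
    sg v T • a = a := by
  rcases sg_eq_or v T with h | h
  · rw [h, one_smul]
  · rw [h, neg_smul, one_smul]
    exact (z2_neg a).symm

section Disc

variable {V : Type} [Fintype V] [LinearOrder V] {G : SimpleGraph V} {A : Set V}

theorem BB_bot (hind : ∀ u ∈ A, ∀ v ∈ A, ¬ G.Adj u v) : BB G tr A ∅ 1 = ⊥ := by
  rw [eq_bot_iff]
  rintro _ ⟨c, hc, rfl⟩
  have h0 : c = 0 := by
    funext T
    apply hc.1 T
    rintro ⟨h1, h2, h3⟩
    obtain ⟨u, v, huv, rfl⟩ := Finset.card_eq_two.1 h3
    exact hind u (h2 (by simp)) v (h2 (by simp)) (h1 (by simp) (by simp) huv)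
  rw [h0, map_zero]
  exact Submodule.zero_mem _

theorem mem_ZZ_iff (c : Finset V → ZMod 2)
    (hs : ∀ T : Finset V, ¬ ((T : Set V) ⊆ A ∧ T.card = 1) → c T = 0)
    (h0 : ∑ v : V, c {v} = 0) : c ∈ ZZ G tr A ∅ 1 := by
  refine ⟨⟨fun T hT => ?_, fun T t _ => ?_⟩, ?_⟩
  · by_cases h : (T : Set V) ⊆ A ∧ T.card = 1
    · exfalso
      apply hT
      refine ⟨?_, h.1, h.2⟩
      obtain ⟨u, rfl⟩ := Finset.card_eq_one.1 h.2
      simp
    · exact hs T h
  · exact z2_neg _
  · change bd (ZMod 2) c = 0
    funext T
    rw [bd_apply]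
    simp only [sg_smul]
    by_cases hT : T = ∅
    · subst hT
      simpa using h0
    · apply Finset.sum_eq_zero
      intro v hv
      apply hs
      rintro ⟨_, h2⟩
      rw [Finset.card_insert_of_notMem (by simpa using hv)] at h2
      exact hT (Finset.card_eq_zero.1 (by omega))

theorem ncard_two (hind : ∀ u ∈ A, ∀ v ∈ A, ¬ G.Adj u v)
    (hb : beta G tr A ∅ 1 = 1) : A.ncard = 2 := by
  unfold beta at hb
  rw [BB_bot hind, finrank_bot, Nat.sub_zero] at hb
  obtain ⟨z, hz, hall⟩ := finrank_eq_one_iff'.1 hb
  obtain ⟨z, hzm⟩ := z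
  have hz0 : z ≠ 0 := fun h => hz (Subtype.ext h)
  obtain ⟨T, hT⟩ := Function.ne_iff.1 hz0
  have hsupp : ∀ T : Finset V, z T ≠ 0 → (T : Set V) ⊆ A ∧ T.card = 1 := by
    intro T hT
    by_contra h
    apply hT
    apply hzm.1.1 T
    rintro ⟨_, h2, h3⟩
    exact h ⟨h2, h3⟩
  obtain ⟨hTA, hTc⟩ := hsupp T hT
  obtain ⟨v0, rfl⟩ := Finset.card_eq_one.1 hTc
  have hv0 : v0 ∈ A := hTA (by simp)
  have hsum : ∑ v : V, z {v} = 0 := by
    have h := congrFun (LinearMap.mem_ker.1 hzm.2) ∅
    rw [bd_apply] at h
    simp only [sg_smul] at h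
    simpa using h
  have h1 : ∃ v1, v1 ≠ v0 ∧ z {v1} ≠ 0 := by
    by_contra hcon
    push Not at hcon
    rw [Finset.sum_eq_single v0 (fun v _ hv => hcon v hv) (fun h => absurd (Finset.mem_univ _) h)]
      at hsum
    exact hT hsum
  obtain ⟨v1, hv10, hv1⟩ := h1
  have hv1A : v1 ∈ A := (hsupp _ hv1).1 (by simp)
  have hA : A = {v0, v1} := by
    apply Set.Subset.antisymm
    · intro v2 hv2
      by_contra h2
      simp only [Set.mem_insert_iff, Set.mem_singleton_iff, not_or] at h2
      obtain ⟨h20, h21⟩ := h2
      let w : Finset V → ZMod 2 := fun T => if T = {v0} ∨ T = {v2} then 1 else 0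
      have hw : w ∈ ZZ G tr A ∅ 1 := by
        apply mem_ZZ_iff
        · intro T hT
          simp only [w]
          rw [if_neg]
          rintro (rfl | rfl)
          · exact hT ⟨by simpa using hv0, by simp⟩
          · exact hT ⟨by simpa using hv2, by simp⟩
        · simp only [w, Finset.singleton_inj]
          have : ∀ v : V, (if v = v0 ∨ v = v2 then (1 : ZMod 2) else 0) =
              (if v = v0 then 1 else 0) + (if v = v2 then 1 else 0) := by
            intro v
            by_cases ha : v = v0
            · subst ha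
              simp [Ne.symm h20]
            · simp [ha]
          simp_rw [this]
          rw [Finset.sum_add_distrib]
          simp
          decide
      obtain ⟨c, hc⟩ := hall ⟨w, hw⟩
      have hc' : c • z = w := congrArg Subtype.val hc
      have e1 := congrFun hc' {v1}
      have e0 := congrFun hc' {v0}
      have w1 : w {v1} = 0 := by
        simp only [w, Finset.singleton_inj]
        rw [if_neg (by
          rintro (h | h)
          · exact hv10 h
          · exact h21 h.symm)]
      have w0 : w {v0} = 1 := by
        simp [w]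
      rw [w1, Pi.smul_apply, smul_eq_mul] at e1
      rw [w0, Pi.smul_apply, smul_eq_mul] at e0
      rcases mul_eq_zero.1 e1 with h | h
      · rw [h, zero_mul] at e0
        exact absurd e0 (by decide)
      · exact hv1 h
    · intro v hv
      simp only [Set.mem_insert_iff, Set.mem_singleton_iff] at hv
      rcases hv with rfl | rfl
      · exact hv0
      · exact hv1A
  rw [hA]
  exact Set.ncard_pair (Ne.symm hv10)

end Disc

theorem adj_rk {V : Type} {n : ℕ} {r : V → V → Prop} {rk : V → Fin n}
    (hrk : ∀ x y, r x y → rk x < rk y) {u v : V} (h : (Pool.Agent.W907.SM.cmp r).Adj u v) : rk u ≠ rk v := by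
  unfold Pool.Agent.W907.SM.cmp at h
  rw [SimpleGraph.fromRel_adj] at h
  rcases h.2 with h | h
  · exact (hrk _ _ h).ne
  · exact (hrk _ _ h).ne'

theorem adj_lt {V : Type} {n : ℕ} {r : V → V → Prop} {rk : V → Fin n}
    (hrk : ∀ x y, r x y → rk x < rk y) {u v : V} (h : (Pool.Agent.W907.SM.cmp r).Adj u v) (hl : rk u < rk v) :
    r u v := by
  unfold Pool.Agent.W907.SM.cmp at h
  rw [SimpleGraph.fromRel_adj] at h
  rcases h.2 with h | h
  · exact h
  · exact absurd (hrk _ _ h) (lt_asymm hl)

theorem adj_of {V : Type} {n : ℕ} {r : V → V → Prop} {rk : V → Fin n}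
    (hrk : ∀ x y, r x y → rk x < rk y) {u v : V} (h : r u v) : (Pool.Agent.W907.SM.cmp r).Adj v u := by
  unfold Pool.Agent.W907.SM.cmp
  rw [SimpleGraph.fromRel_adj]
  refine ⟨?_, Or.inr h⟩
  rintro rfl
  exact (lt_irrefl _) (hrk _ _ h)

theorem main (hE : M_EXT) (hI : M_INT) : M_THIN := by
  classical
  intro n V _ _ r rk hG
  have hrk := hG.rk_lt
  constructor
  · intro N m hN R hR hRm
    -- the clique to extend
    have hF0 : ∃ F0 : Finset V, (Pool.Agent.W907.SM.cmp r).IsClique (F0 : Set V) ∧ R ∈ F0 ∧
        (∀ F' : Finset V, F0 ⊆ F' → (Pool.Agent.W907.SM.cmp r).IsClique (F' : Set V) → ∀ u ∈ F', (rk u : ℕ) ≤ m →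
          u ∈ N) := by
      rcases hN with ⟨rfl, hm⟩ | ⟨y, rfl, hm⟩
      · exact ⟨{R}, by simp, by simp, fun _ _ _ _ _ _ => Set.mem_univ _⟩
      · have hRy : r R y := hR
        refine ⟨{R, y}, ?_, by simp, ?_⟩
        · intro a ha b hb hab
          simp only [Finset.coe_insert, Finset.coe_singleton, Set.mem_insert_iff,
            Set.mem_singleton_iff] at ha hb
          rcases ha with rfl | rfl <;> rcases hb with rfl | rfl
          · exact absurd rfl hab
          · exact (adj_of hrk hRy).symm
          · exact adj_of hrk hRy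
          · exact absurd rfl hab
        · intro F' hF' hcl u hu hum
          have hyF : y ∈ F' := hF' (by simp)
          have hne : u ≠ y := by
            rintro rfl
            omega
          have hadj := hcl hu hyF hne
          change r u y
          exact adj_lt hrk hadj (by
            rw [Fin.lt_def]
            omega)
    obtain ⟨F0, hcl0, hRF0, hFN⟩ := hF0
    obtain ⟨F', hsub, hcl', hcard'⟩ := hE n V r rk hG F0 hcl0
    have hinj : Set.InjOn rk (F' : Set V) := by
      intro a ha b hb hab
      by_contra hne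
      exact adj_rk hrk (hcl' ha hb hne) hab
    have himg : F'.image rk = Finset.univ := by
      apply Finset.eq_univ_of_card
      rw [Finset.card_image_of_injOn hinj, hcard', Fintype.card_fin]
    have hsurj : ∀ c : Fin n, ∃ u ∈ F', rk u = c := by
      intro c
      have : c ∈ F'.image rk := by rw [himg]; exact Finset.mem_univ _
      simpa using this
    set F : Finset V := F'.filter (fun u => (rk u : ℕ) ≤ m) with hF
    have hFcl : (Pool.Agent.W907.SM.cmp r).IsClique (F : Set V) := hcl'.subset (by
      intro x hx
      have : x ∈ F := hx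
      exact (Finset.mem_filter.1 this).1)
    have hRF : R ∈ F := Finset.mem_filter.2 ⟨hsub hRF0, hRm.le⟩
    have hFsub : (F : Set V) ⊆ N := by
      intro u hu
      have hu' := Finset.mem_filter.1 (show u ∈ F from hu)
      exact hFN F' hsub hcl' u hu'.1 hu'.2
    have hmn : m < n := by
      have := (rk R).2
      omega
    have hFcard : F.card = m + 1 := by
      have h1 : F.image rk = Finset.univ.filter (fun c : Fin n => (c : ℕ) ≤ m) := by
        ext c
        simp only [Finset.mem_image, Finset.mem_filter, Finset.mem_univ, true_and, hF]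
        constructor
        · rintro ⟨u, ⟨_, hu⟩, rfl⟩
          exact hu
        · intro hc
          obtain ⟨u, hu, rfl⟩ := hsurj c
          exact ⟨u, ⟨hu, hc⟩, rfl⟩
      have h2 : F.card = (F.image rk).card := by
        rw [Finset.card_image_of_injOn]
        exact hinj.mono (by
          intro x hx
          exact (Finset.mem_filter.1 (show x ∈ F from hx)).1)
      rw [h2, h1]
      have h3 : (Finset.univ.filter (fun c : Fin n => (c : ℕ) ≤ m)) =
          (Finset.range (m + 1)).attachFin (fun c hc => by
            rw [Finset.mem_range] at hc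
            omega) := by
        ext c
        simp only [Finset.mem_filter, Finset.mem_univ, true_and, Finset.mem_attachFin,
          Finset.mem_range]
        omega
      rw [h3, Finset.card_attachFin, Finset.card_range]
    have hlk : lk (Pool.Agent.W907.SM.cmp r) F ∩ N = {M | M ∈ N ∧ r R M} := by
      ext M
      simp only [Set.mem_inter_iff, Set.mem_ofPred_eq]
      constructor
      · rintro ⟨h1, h2⟩
        refine ⟨h2, ?_⟩
        have hadj : (Pool.Agent.W907.SM.cmp r).Adj M R := h1 R hRF
        have hne := adj_rk hrk hadj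
        rcases lt_or_gt_of_ne hne with h | h
        · exfalso
          obtain ⟨u, hu, hur⟩ := hsurj (rk M)
          have huF : u ∈ F := Finset.mem_filter.2 ⟨hu, by
            rw [hur]
            rw [Fin.lt_def] at h
            omega⟩
          exact adj_rk hrk (h1 u huF) hur.symm
        · exact adj_lt hrk hadj.symm h
      · rintro ⟨h1, h2⟩
        refine ⟨?_, h1⟩
        intro u hu
        have hu' := Finset.mem_filter.1 (show u ∈ F from hu)
        by_cases huR : u = R
        · subst huR
          exact adj_of hrk h2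
        · have hadj := hFcl hu hRF huR
          have hne := adj_rk hrk hadj
          have hlt : rk u < rk R := by
            rcases lt_or_gt_of_ne hne with h | h
            · exact h
            · exfalso
              rw [Fin.lt_def] at h
              omega
          exact adj_of hrk (hG.trans _ _ _ (adj_lt hrk hadj hlt) h2)
    have hb := hI n V r rk hG N (m + 2) hN F hFcl hFsub 1
    rw [if_pos (by rw [hFcard]; omega), hlk] at hb
    apply ncard_two _ hb
    intro u hu v hv hadj
    simp only [Set.mem_ofPred_eq] at hu hv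
    have hval : ∀ w, w ∈ N ∧ r R w → (rk w : ℕ) = m + 1 := by
      rintro w ⟨hw1, hw2⟩
      have h1 := hrk _ _ hw2
      rw [Fin.lt_def] at h1
      have h2 : (rk w : ℕ) < m + 2 := by
        rcases hN with ⟨rfl, hm⟩ | ⟨y, rfl, hm⟩
        · have := (rk w).2
          omega
        · have h3 := hrk _ _ (show r w y from hw1)
          rw [Fin.lt_def] at h3
          omega
      omega
    exact adj_rk hrk hadj (Fin.ext (by rw [hval u hu, hval v hv]))
  · intro N hN
    have hb := hI n V r rk hG N 1 hN ∅ (by simp) (by simp) 1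
    rw [if_pos (by simp)] at hb
    have hlk : lk (Pool.Agent.W907.SM.cmp r) (∅ : Finset V) ∩ N = N := by
      ext M
      simp [lk]
    rw [hlk] at hb
    apply ncard_two _ hb
    intro u hu v hv hadj
    have hval : ∀ w ∈ N, (rk w : ℕ) = 0 := by
      intro w hw
      rcases hN with ⟨rfl, hm⟩ | ⟨y, rfl, hm⟩
      · have := (rk w).2
        omega
      · have h3 := hrk _ _ (show r w y from hw)
        rw [Fin.lt_def] at h3
        omega
    exact adj_rk hrk hadj (Fin.ext (by rw [hval u hu, hval v hv]))

end Pool.Agent.W391.SM.Thin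


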